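import Mathlib

/-!
# Ten points without a monochromatic circle

Five red and five blue points in the plane without a monochromatic circle; no colour class lies on
a circle or a line, and the ten points lie, even up to inversion, on no curve of the four types of
the problem.
-/

namespace Pool.Agent.Results.MP_048963_co.TenPoints

/-! ### Definitions -/

/-- The points of the plane. -/
abbrev Pt : Type := ℝ × ℝ

/-- The square of the Euclidean distance. -/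
def sqd (p q : Pt) : ℝ := (p.1 - q.1) ^ 2 + (p.2 - q.2) ^ 2

/-- Circles. -/
def IsCircle (C : Set Pt) : Prop := ∃ (c : Pt) (r : ℝ), 0 < r ∧ C = {p | sqd p c = r ^ 2}

/-- Lines. -/
def IsLine (L : Set Pt) : Prop :=
  ∃ a b c : ℝ, (a ≠ 0 ∨ b ≠ 0) ∧ L = {p : Pt | a * p.1 + b * p.2 = c}

/-- A circle with at least three points of `R ∪ B`, all of them in `R` or all of them in `B`. -/
def IsMonochromatic (R B C : Set Pt) : Prop :=
  3 ≤ (C ∩ (R ∪ B)).ncard ∧ (C ∩ (R ∪ B) ⊆ R ∨ C ∩ (R ∪ B) ⊆ B)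

/-- The inversion in the circle with centre `c` and radius `ρ`. -/
noncomputable def inv (c : Pt) (ρ : ℝ) (p : Pt) : Pt :=
  (c.1 + ρ ^ 2 * (p.1 - c.1) / sqd p c, c.2 + ρ ^ 2 * (p.2 - c.2) / sqd p c)

/-- `S` lies on `Γ`, possibly after an inversion whose centre is not in `S`. -/
def UpToInversion (S Γ : Set Pt) : Prop :=
  S ⊆ Γ ∨ ∃ (c : Pt) (ρ : ℝ), 0 < ρ ∧ c ∉ S ∧ inv c ρ '' S ⊆ Γ

/-- Ellipses (given by an equation with positive definite quadratic part). -/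
def IsEllipse (Γ : Set Pt) : Prop :=
  ∃ a b c d e f : ℝ, 0 < 4 * a * c - b ^ 2 ∧
    Γ = {p : Pt | a * p.1 ^ 2 + b * p.1 * p.2 + c * p.2 ^ 2 + d * p.1 + e * p.2 + f = 0}

/-- Unions of two disjoint circles. -/
def IsTwoDisjointCircles (Γ : Set Pt) : Prop :=
  ∃ C D : Set Pt, IsCircle C ∧ IsCircle D ∧ Disjoint C D ∧ Γ = C ∪ D

/-- Circular cubics: zero sets of `(ux + vy)(x² + y²) + q(x, y, 1)`, not all coefficients zero
(the elliptic and the acnodal ones are among these). -/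
def IsCircularCubic (Γ : Set Pt) : Prop :=
  ∃ u v a b c d e f : ℝ,
    ¬ (u = 0 ∧ v = 0 ∧ a = 0 ∧ b = 0 ∧ c = 0 ∧ d = 0 ∧ e = 0 ∧ f = 0) ∧
    Γ = {p : Pt | (u * p.1 + v * p.2) * (p.1 ^ 2 + p.2 ^ 2) +
      (a * p.1 ^ 2 + b * p.1 * p.2 + c * p.2 ^ 2 + d * p.1 + e * p.2 + f) = 0}

/-- Bicircular quartics: images of circular cubics under inversions centred off the cubic; the
centre `c` is the image of the points at infinity. -/
def IsBicircularQuartic (Γ : Set Pt) : Prop :=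
  ∃ (Z : Set Pt) (c : Pt) (ρ : ℝ), IsCircularCubic Z ∧ 0 < ρ ∧ c ∉ Z ∧
    (Γ = inv c ρ '' Z ∨ Γ = inv c ρ '' Z ∪ {c})

/-! ### The family of equations -/

/-- The family of polynomials, centred at `c`. -/
def wp (c : Pt) (k0 k1 k2 k3 k4 k5 k6 k7 k8 : ℝ) (p : Pt) : ℝ :=
  k0 * ((p.1 - c.1) ^ 2 + (p.2 - c.2) ^ 2) ^ 2 +
  k1 * (p.1 - c.1) * ((p.1 - c.1) ^ 2 + (p.2 - c.2) ^ 2) +
  k2 * (p.2 - c.2) * ((p.1 - c.1) ^ 2 + (p.2 - c.2) ^ 2) +
  k3 * (p.1 - c.1) ^ 2 + k4 * (p.1 - c.1) * (p.2 - c.2) + k5 * (p.2 - c.2) ^ 2 +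
  k6 * (p.1 - c.1) + k7 * (p.2 - c.2) + k8

/-- `T` lies on the zero set of a nonzero member of the family centred at `c`. -/
def OnW (c : Pt) (T : Set Pt) : Prop :=
  ∃ k0 k1 k2 k3 k4 k5 k6 k7 k8 : ℝ,
    ¬ (k0 = 0 ∧ k1 = 0 ∧ k2 = 0 ∧ k3 = 0 ∧ k4 = 0 ∧ k5 = 0 ∧ k6 = 0 ∧ k7 = 0 ∧ k8 = 0) ∧
    ∀ p ∈ T, wp c k0 k1 k2 k3 k4 k5 k6 k7 k8 p = 0

lemma OnW.mono {c : Pt} {T T' : Set Pt} (h : OnW c T) (hT : T' ⊆ T) : OnW c T' := by
  obtain ⟨k0, k1, k2, k3, k4, k5, k6, k7, k8, hk, h⟩ := h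
  exact ⟨k0, k1, k2, k3, k4, k5, k6, k7, k8, hk, fun p hp => h p (hT hp)⟩

/-- The family does not depend on the centre. -/
lemma OnW.translate {c : Pt} {T : Set Pt} (h : OnW c T) (c' : Pt) : OnW c' T := by
  obtain ⟨k0, k1, k2, k3, k4, k5, k6, k7, k8, hk, h⟩ := h
  set s : ℝ := c'.1 - c.1 with hs
  set t : ℝ := c'.2 - c.2 with ht
  refine ⟨k0, k1 + 4 * s * k0, k2 + 4 * t * k0,
    k3 + k0 * (2 * (s ^ 2 + t ^ 2) + 4 * s ^ 2) + 3 * s * k1 + t * k2,
    k4 + 8 * s * t * k0 + 2 * t * k1 + 2 * s * k2,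
    k5 + k0 * (2 * (s ^ 2 + t ^ 2) + 4 * t ^ 2) + s * k1 + 3 * t * k2,
    k6 + 4 * s * (s ^ 2 + t ^ 2) * k0 + k1 * (s ^ 2 + t ^ 2 + 2 * s ^ 2) + k2 * (2 * s * t) +
      2 * s * k3 + t * k4,
    k7 + 4 * t * (s ^ 2 + t ^ 2) * k0 + k1 * (2 * s * t) + k2 * (s ^ 2 + t ^ 2 + 2 * t ^ 2) +
      s * k4 + 2 * t * k5,
    k8 + k0 * (s ^ 2 + t ^ 2) ^ 2 + k1 * s * (s ^ 2 + t ^ 2) + k2 * t * (s ^ 2 + t ^ 2) +
      k3 * s ^ 2 + k4 * s * t + k5 * t ^ 2 + k6 * s + k7 * t, ?_, ?_⟩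
  · rintro ⟨e0, e1, e2, e3, e4, e5, e6, e7, e8⟩
    apply hk
    subst e0
    simp only [mul_zero, add_zero, zero_mul] at e1 e2 e3 e4 e5 e6 e7 e8
    subst e1 e2
    simp only [mul_zero, add_zero, zero_mul] at e3 e4 e5 e6 e7 e8
    subst e3 e4 e5
    simp only [mul_zero, add_zero, zero_mul] at e6 e7 e8
    subst e6 e7
    simp only [mul_zero, add_zero, zero_mul] at e8
    exact ⟨rfl, rfl, rfl, rfl, rfl, rfl, rfl, rfl, e8⟩
  · intro p hp
    rw [← h p hp]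
    simp only [wp, hs, ht]
    ring

/-- Pulling back along an inversion. -/
lemma OnW.pull {c : Pt} {ρ : ℝ} (hρ : 0 < ρ) {T : Set Pt} (h : OnW c T) :
    OnW c {p | p ≠ c ∧ inv c ρ p ∈ T} := by
  obtain ⟨k0, k1, k2, k3, k4, k5, k6, k7, k8, hk, h⟩ := h
  have hρ0 : ρ ≠ 0 := hρ.ne'
  refine ⟨k8, ρ ^ 2 * k6, ρ ^ 2 * k7, ρ ^ 4 * k3, ρ ^ 4 * k4, ρ ^ 4 * k5, ρ ^ 6 * k1, ρ ^ 6 * k2,
    ρ ^ 8 * k0, ?_, ?_⟩
  · rintro ⟨e8, e6, e7, e3, e4, e5, e1, e2, e0⟩
    apply hk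
    simp only [mul_eq_zero, pow_eq_zero_iff, ne_eq, OfNat.ofNat_ne_zero, not_false_eq_true,
      hρ0, false_or] at e6 e7 e3 e4 e5 e1 e2 e0
    exact ⟨e0, e1, e2, e3, e4, e5, e6, e7, e8⟩
  · rintro p ⟨hpc, hp⟩
    have hd : sqd p c ≠ 0 := by
      intro h0
      apply hpc
      unfold sqd at h0
      have h1 : p.1 - c.1 = 0 := by nlinarith [sq_nonneg (p.1 - c.1), sq_nonneg (p.2 - c.2)]
      have h2 : p.2 - c.2 = 0 := by nlinarith [sq_nonneg (p.1 - c.1), sq_nonneg (p.2 - c.2)]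
      exact Prod.ext (by linarith) (by linarith)
    have h1 := h _ hp
    have key : wp c k8 (ρ ^ 2 * k6) (ρ ^ 2 * k7) (ρ ^ 4 * k3) (ρ ^ 4 * k4) (ρ ^ 4 * k5)
        (ρ ^ 6 * k1) (ρ ^ 6 * k2) (ρ ^ 8 * k0) p =
        (sqd p c) ^ 2 * wp c k0 k1 k2 k3 k4 k5 k6 k7 k8 (inv c ρ p) := by
      simp only [wp, inv]
      have hd' : (p.1 - c.1) ^ 2 + (p.2 - c.2) ^ 2 = sqd p c := rfl
      generalize hD : sqd p c = D at *
      generalize hX : p.1 - c.1 = X at *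
      generalize hY : p.2 - c.2 = Y at *
      have e1 : c.1 + ρ ^ 2 * X / D - c.1 = ρ ^ 2 * X / D := by ring
      have e2 : c.2 + ρ ^ 2 * Y / D - c.2 = ρ ^ 2 * Y / D := by ring
      rw [e1, e2]
      have e3 : (ρ ^ 2 * X / D) ^ 2 + (ρ ^ 2 * Y / D) ^ 2 = ρ ^ 4 / D := by
        have : (ρ ^ 2 * X / D) ^ 2 + (ρ ^ 2 * Y / D) ^ 2 = ρ ^ 4 * (X ^ 2 + Y ^ 2) / D ^ 2 := by
          ring
        rw [this, hd']
        field_simp
      rw [e3, hd']
      field_simp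
      ring
    rw [key, h1, mul_zero]

lemma inv_ne {c p : Pt} {ρ : ℝ} (hρ : 0 < ρ) (h : p ≠ c) : inv c ρ p ≠ c := by
  intro h1
  have hd : sqd p c ≠ 0 := by
    intro h0
    apply h
    unfold sqd at h0
    have h1 : p.1 - c.1 = 0 := by nlinarith [sq_nonneg (p.1 - c.1), sq_nonneg (p.2 - c.2)]
    have h2 : p.2 - c.2 = 0 := by nlinarith [sq_nonneg (p.1 - c.1), sq_nonneg (p.2 - c.2)]
    exact Prod.ext (by linarith) (by linarith)
  have e1 := (Prod.ext_iff.1 h1).1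
  have e2 := (Prod.ext_iff.1 h1).2
  simp only [inv] at e1 e2
  have hρ2 : ρ ^ 2 ≠ 0 := by positivity
  have f1 : ρ ^ 2 * (p.1 - c.1) / sqd p c = 0 := by linarith
  have f2 : ρ ^ 2 * (p.2 - c.2) / sqd p c = 0 := by linarith
  rw [div_eq_zero_iff, mul_eq_zero] at f1 f2
  have g1 : p.1 - c.1 = 0 := by tauto
  have g2 : p.2 - c.2 = 0 := by tauto
  exact h (Prod.ext (by linarith) (by linarith))

lemma inv_inv {c p : Pt} {ρ : ℝ} (hρ : 0 < ρ) (h : p ≠ c) : inv c ρ (inv c ρ p) = p := by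
  have hd : sqd p c ≠ 0 := by
    intro h0
    apply h
    unfold sqd at h0
    have h1 : p.1 - c.1 = 0 := by nlinarith [sq_nonneg (p.1 - c.1), sq_nonneg (p.2 - c.2)]
    have h2 : p.2 - c.2 = 0 := by nlinarith [sq_nonneg (p.1 - c.1), sq_nonneg (p.2 - c.2)]
    exact Prod.ext (by linarith) (by linarith)
  have hρ0 : ρ ≠ 0 := hρ.ne'
  have hs : sqd (inv c ρ p) c = ρ ^ 4 / sqd p c := by
    have hd' : (p.1 - c.1) ^ 2 + (p.2 - c.2) ^ 2 = sqd p c := rfl
    have : sqd (inv c ρ p) c = ρ ^ 4 * ((p.1 - c.1) ^ 2 + (p.2 - c.2) ^ 2) / (sqd p c) ^ 2 := by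
      conv_lhs => unfold sqd inv
      simp only
      ring
    rw [this, hd']
    field_simp
  apply Prod.ext
  · change c.1 + ρ ^ 2 * ((inv c ρ p).1 - c.1) / sqd (inv c ρ p) c = p.1
    rw [hs]
    simp only [inv]
    field_simp
    ring
  · change c.2 + ρ ^ 2 * ((inv c ρ p).2 - c.2) / sqd (inv c ρ p) c = p.2
    rw [hs]
    simp only [inv]
    field_simp
    ring

/-! ### The curves of the problem belong to the family -/

lemma ellipse_onW {Γ : Set Pt} (h : IsEllipse Γ) : OnW 0 Γ := by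
  obtain ⟨a, b, c, d, e, f, h0, rfl⟩ := h
  refine ⟨0, 0, 0, a, b, c, d, e, f, ?_, ?_⟩
  · rintro ⟨-, -, -, rfl, rfl, rfl, -⟩
    norm_num at h0
  · intro p hp
    simp only [Set.mem_ofPred_eq] at hp
    simp only [wp, Prod.fst_zero, Prod.snd_zero, sub_zero]
    linarith

lemma circles_onW {Γ : Set Pt} (h : IsTwoDisjointCircles Γ) : OnW 0 Γ := by
  obtain ⟨C, D, ⟨c, r, hr, rfl⟩, ⟨d, s, hs, rfl⟩, -, rfl⟩ := h
  refine ⟨1, -2 * (c.1 + d.1), -2 * (c.2 + d.2),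
    (c.1 ^ 2 + c.2 ^ 2 - r ^ 2 + (d.1 ^ 2 + d.2 ^ 2 - s ^ 2)) + 4 * c.1 * d.1,
    4 * (c.1 * d.2 + c.2 * d.1),
    (c.1 ^ 2 + c.2 ^ 2 - r ^ 2 + (d.1 ^ 2 + d.2 ^ 2 - s ^ 2)) + 4 * c.2 * d.2,
    -2 * (c.1 * (d.1 ^ 2 + d.2 ^ 2 - s ^ 2) + d.1 * (c.1 ^ 2 + c.2 ^ 2 - r ^ 2)),
    -2 * (c.2 * (d.1 ^ 2 + d.2 ^ 2 - s ^ 2) + d.2 * (c.1 ^ 2 + c.2 ^ 2 - r ^ 2)),
    (c.1 ^ 2 + c.2 ^ 2 - r ^ 2) * (d.1 ^ 2 + d.2 ^ 2 - s ^ 2), ?_, ?_⟩
  · rintro ⟨h, -⟩
    norm_num at h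
  · intro p hp
    have : wp 0 1 (-2 * (c.1 + d.1)) (-2 * (c.2 + d.2))
        ((c.1 ^ 2 + c.2 ^ 2 - r ^ 2 + (d.1 ^ 2 + d.2 ^ 2 - s ^ 2)) + 4 * c.1 * d.1)
        (4 * (c.1 * d.2 + c.2 * d.1))
        ((c.1 ^ 2 + c.2 ^ 2 - r ^ 2 + (d.1 ^ 2 + d.2 ^ 2 - s ^ 2)) + 4 * c.2 * d.2)
        (-2 * (c.1 * (d.1 ^ 2 + d.2 ^ 2 - s ^ 2) + d.1 * (c.1 ^ 2 + c.2 ^ 2 - r ^ 2)))
        (-2 * (c.2 * (d.1 ^ 2 + d.2 ^ 2 - s ^ 2) + d.2 * (c.1 ^ 2 + c.2 ^ 2 - r ^ 2)))
        ((c.1 ^ 2 + c.2 ^ 2 - r ^ 2) * (d.1 ^ 2 + d.2 ^ 2 - s ^ 2)) p =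
        (sqd p c - r ^ 2) * (sqd p d - s ^ 2) := by
      simp only [wp, sqd, Prod.fst_zero, Prod.snd_zero, sub_zero]
      ring
    rw [this]
    rcases hp with hp | hp
    · simp only [Set.mem_ofPred_eq] at hp
      rw [hp, sub_self, zero_mul]
    · simp only [Set.mem_ofPred_eq] at hp
      rw [hp, sub_self, mul_zero]

lemma cubic_onW {Γ : Set Pt} (h : IsCircularCubic Γ) : OnW 0 Γ := by
  obtain ⟨u, v, a, b, c, d, e, f, h0, rfl⟩ := h
  refine ⟨0, u, v, a, b, c, d, e, f, ?_, ?_⟩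
  · rintro ⟨-, h⟩
    exact h0 h
  · intro p hp
    simp only [Set.mem_ofPred_eq] at hp
    simp only [wp, Prod.fst_zero, Prod.snd_zero, sub_zero]
    linarith

/-- A cubic and the centre of the inversion. -/
lemma quartic_onW {Γ : Set Pt} (h : IsBicircularQuartic Γ) : OnW 0 Γ := by
  obtain ⟨Z, c, ρ, hZ, hρ, hc, hΓ⟩ := h
  suffices h1 : OnW c (inv c ρ '' Z ∪ {c}) by
    refine (h1.mono ?_).translate 0
    rcases hΓ with rfl | rfl
    · exact Set.subset_union_left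
    · exact subset_rfl
  obtain ⟨u, v, a, b, c', d, e, f, h0, rfl⟩ := hZ
  obtain ⟨c1, c2⟩ := c
  have hρ0 : ρ ≠ 0 := hρ.ne'
  have h2 : OnW (c1, c2) {p : Pt | (u * p.1 + v * p.2) * (p.1 ^ 2 + p.2 ^ 2) +
      (a * p.1 ^ 2 + b * p.1 * p.2 + c' * p.2 ^ 2 + d * p.1 + e * p.2 + f) = 0} :=
    (cubic_onW ⟨u, v, a, b, c', d, e, f, h0, rfl⟩).translate _
  have hpull : ∀ k1 k2 k3 k4 k5 k6 k7 k8 : ℝ,
      ¬ (k1 = 0 ∧ k2 = 0 ∧ k3 = 0 ∧ k4 = 0 ∧ k5 = 0 ∧ k6 = 0 ∧ k7 = 0 ∧ k8 = 0) →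
      (∀ p ∈ {p : Pt | (u * p.1 + v * p.2) * (p.1 ^ 2 + p.2 ^ 2) +
        (a * p.1 ^ 2 + b * p.1 * p.2 + c' * p.2 ^ 2 + d * p.1 + e * p.2 + f) = 0},
        wp (c1, c2) 0 k1 k2 k3 k4 k5 k6 k7 k8 p = 0) →
      OnW (c1, c2) (inv (c1, c2) ρ '' {p : Pt | (u * p.1 + v * p.2) * (p.1 ^ 2 + p.2 ^ 2) +
        (a * p.1 ^ 2 + b * p.1 * p.2 + c' * p.2 ^ 2 + d * p.1 + e * p.2 + f) = 0} ∪ {(c1, c2)}) := by
    intro k1 k2 k3 k4 k5 k6 k7 k8 hk h
    refine ⟨k8, ρ ^ 2 * k6, ρ ^ 2 * k7, ρ ^ 4 * k3, ρ ^ 4 * k4, ρ ^ 4 * k5, ρ ^ 6 * k1, ρ ^ 6 * k2,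
      0, ?_, ?_⟩
    · rintro ⟨e8, e6, e7, e3, e4, e5, e1, e2, -⟩
      apply hk
      simp only [mul_eq_zero, pow_eq_zero_iff, ne_eq, OfNat.ofNat_ne_zero, not_false_eq_true,
        hρ0, false_or] at e6 e7 e3 e4 e5 e1 e2
      exact ⟨e1, e2, e3, e4, e5, e6, e7, e8⟩
    · rintro p (⟨z, hz, rfl⟩ | hp)
      · have hzc : z ≠ (c1, c2) := fun h => hc (h ▸ hz)
        have hne := inv_ne hρ hzc
        have h1 := h z hz
        have hd : sqd (inv (c1, c2) ρ z) (c1, c2) ≠ 0 := by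
          intro h0
          apply hne
          unfold sqd at h0
          have h1 : (inv (c1, c2) ρ z).1 - (c1, c2).1 = 0 := by
            nlinarith [sq_nonneg ((inv (c1, c2) ρ z).1 - (c1, c2).1),
              sq_nonneg ((inv (c1, c2) ρ z).2 - (c1, c2).2)]
          have h2 : (inv (c1, c2) ρ z).2 - (c1, c2).2 = 0 := by
            nlinarith [sq_nonneg ((inv (c1, c2) ρ z).1 - (c1, c2).1),
              sq_nonneg ((inv (c1, c2) ρ z).2 - (c1, c2).2)]
          exact Prod.ext (by linarith) (by linarith)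
        rw [← inv_inv hρ hzc] at h1
        generalize inv (c1, c2) ρ z = p at *
        have key : wp (c1, c2) k8 (ρ ^ 2 * k6) (ρ ^ 2 * k7) (ρ ^ 4 * k3) (ρ ^ 4 * k4) (ρ ^ 4 * k5)
            (ρ ^ 6 * k1) (ρ ^ 6 * k2) 0 p =
            (sqd p (c1, c2)) ^ 2 * wp (c1, c2) 0 k1 k2 k3 k4 k5 k6 k7 k8 (inv (c1, c2) ρ p) := by
          simp only [wp, inv]
          have hd' : (p.1 - c1) ^ 2 + (p.2 - c2) ^ 2 = sqd p (c1, c2) := rfl
          generalize hD : sqd p (c1, c2) = D at *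
          generalize hX : p.1 - c1 = X at *
          generalize hY : p.2 - c2 = Y at *
          have e1 : c1 + ρ ^ 2 * X / D - c1 = ρ ^ 2 * X / D := by ring
          have e2 : c2 + ρ ^ 2 * Y / D - c2 = ρ ^ 2 * Y / D := by ring
          rw [e1, e2]
          have e3 : (ρ ^ 2 * X / D) ^ 2 + (ρ ^ 2 * Y / D) ^ 2 = ρ ^ 4 / D := by
            have : (ρ ^ 2 * X / D) ^ 2 + (ρ ^ 2 * Y / D) ^ 2 = ρ ^ 4 * (X ^ 2 + Y ^ 2) / D ^ 2 := by
              ring
            rw [this, hd']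
            field_simp
          rw [e3, hd']
          field_simp
          ring
        rw [key, h1, mul_zero]
      · rw [Set.mem_singleton_iff] at hp
        subst hp
        simp [wp]
  refine hpull (u) (v) (a + 3 * c1 * u + c2 * v) (b + 2 * c2 * u + 2 * c1 * v)
    (c' + c1 * u + 3 * c2 * v)
    (d + u * (c1 ^ 2 + c2 ^ 2 + 2 * c1 ^ 2) + v * (2 * c1 * c2) + 2 * c1 * a + c2 * b)
    (e + u * (2 * c1 * c2) + v * (c1 ^ 2 + c2 ^ 2 + 2 * c2 ^ 2) + c1 * b + 2 * c2 * c')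
    (f + u * c1 * (c1 ^ 2 + c2 ^ 2) + v * c2 * (c1 ^ 2 + c2 ^ 2) +
      a * c1 ^ 2 + b * c1 * c2 + c' * c2 ^ 2 + d * c1 + e * c2) ?_ ?_
  · rintro ⟨e1, e2, e3, e4, e5, e6, e7, e8⟩
    apply h0
    subst e1 e2
    simp only [mul_zero, add_zero, zero_mul] at e3 e4 e5 e6 e7 e8
    subst e3 e4 e5
    simp only [mul_zero, add_zero, zero_mul] at e6 e7 e8
    subst e6 e7
    simp only [mul_zero, add_zero, zero_mul] at e8
    exact ⟨rfl, rfl, rfl, rfl, rfl, rfl, rfl, e8⟩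
  · intro p hp
    simp only [Set.mem_ofPred_eq] at hp
    refine Eq.trans ?_ hp
    simp only [wp]
    ring

lemma upTo_onW {S Γ : Set Pt} (h : UpToInversion S Γ) (hΓ : OnW 0 Γ) : OnW 0 S := by
  rcases h with h | ⟨c, ρ, hρ, hc, h⟩
  · exact hΓ.mono h
  · refine (((hΓ.translate c).pull hρ).mono ?_).translate 0
    intro p hp
    exact ⟨fun h' => hc (h' ▸ hp), h ⟨p, hp, rfl⟩⟩

/-! ### The ten points -/

/-- The red points. -/
def R : Set Pt := {(5, -5), (20, -10), (4, 2), (10, 10), (-10, 0)}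

/-- The blue points. -/
def B : Set Pt := {(4, -2), (0, -10), (0, 0), (0, 10), (10, 0)}

lemma not_onW : ¬ OnW 0 (R ∪ B) := by
  rintro ⟨k0, k1, k2, k3, k4, k5, k6, k7, k8, hk, h⟩
  have r1 := h (5, -5) (by simp [R])
  have r2 := h (20, -10) (by simp [R])
  have r3 := h (4, 2) (by simp [R])
  have r4 := h (10, 10) (by simp [R])
  have r5 := h (-10, 0) (by simp [R])
  have b1 := h (4, -2) (by simp [B])
  have b2 := h (0, -10) (by simp [B])
  have b3 := h (0, 0) (by simp [B])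
  have b4 := h (0, 10) (by simp [B])
  have b5 := h (10, 0) (by simp [B])
  simp only [wp, Prod.fst_zero, Prod.snd_zero, sub_zero] at r1 r2 r3 r4 r5 b1 b2 b3 b4 b5
  apply hk
  refine ⟨?_, ?_, ?_, ?_, ?_, ?_, ?_, ?_, ?_⟩ <;> linarith

/-- Three distinct points of a set with at least three elements. -/
lemma exists_three {s : Set Pt} (h : 3 ≤ s.ncard) :
    ∃ a ∈ s, ∃ b ∈ s, ∃ c ∈ s, a ≠ b ∧ a ≠ c ∧ b ≠ c := by
  have hfin : s.Finite := Set.finite_of_ncard_pos (by omega)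
  obtain ⟨a, b, c, ha, hb, hc, h1, h2, h3⟩ := (Set.two_lt_ncard_iff hfin).1 (by omega)
  exact ⟨a, ha, b, hb, c, hc, h1, h2, h3⟩

lemma no_mono (C : Set Pt) (hC : IsCircle C) : ¬ IsMonochromatic R B C := by
  obtain ⟨⟨u, v⟩, r, hr, rfl⟩ := hC
  rintro ⟨h3, h | h⟩
  · obtain ⟨p, hp, q, hq, s, hs, hpq, hps, hqs⟩ := exists_three h3
    have nb : ∀ x ∈ B, x ∉ R → sqd x (u, v) ≠ r ^ 2 := by
      intro x hx hxR h0
      exact hxR (h ⟨h0, Or.inr hx⟩)
    have n1 := nb (4, -2) (by simp [B]) (by simp [R]; norm_num)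
    have n2 := nb (0, -10) (by simp [B]) (by simp [R]; try norm_num)
    have n3 := nb (0, 0) (by simp [B]) (by simp [R]; try norm_num)
    have n4 := nb (0, 10) (by simp [B]) (by simp [R]; try norm_num)
    have n5 := nb (10, 0) (by simp [B]) (by simp [R]; try norm_num)
    have hp1 := h hp
    have hq1 := h hq
    have hs1 := h hs
    have hp2 := hp.1
    have hq2 := hq.1
    have hs2 := hs.1
    clear hp hq hs h nb h3
    simp only [R, Set.mem_insert_iff, Set.mem_singleton_iff] at hp1 hq1 hs1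
    simp only [Set.mem_ofPred_eq, sqd] at hp2 hq2 hs2 n1 n2 n3 n4 n5
    rcases hp1 with rfl | rfl | rfl | rfl | rfl <;> rcases hq1 with rfl | rfl | rfl | rfl | rfl <;>
      first
      | exact absurd rfl hpq
      | (rcases hs1 with rfl | rfl | rfl | rfl | rfl <;>
          first
          | exact absurd rfl hps
          | exact absurd rfl hqs
          | (simp only at hp2 hq2 hs2 n1 n2 n3 n4 n5
             first
             | exact n1 (by linarith)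
             | exact n2 (by linarith)
             | exact n3 (by linarith)
             | exact n4 (by linarith)
             | exact n5 (by linarith)
             | linarith))
  · obtain ⟨p, hp, q, hq, s, hs, hpq, hps, hqs⟩ := exists_three h3
    have nb : ∀ x ∈ R, x ∉ B → sqd x (u, v) ≠ r ^ 2 := by
      intro x hx hxR h0
      exact hxR (h ⟨h0, Or.inl hx⟩)
    have n1 := nb (5, -5) (by simp [R]) (by simp [B]; try norm_num)
    have n2 := nb (20, -10) (by simp [R]) (by simp [B]; try norm_num)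
    have n3 := nb (4, 2) (by simp [R]) (by simp [B]; try norm_num)
    have n4 := nb (10, 10) (by simp [R]) (by simp [B]; try norm_num)
    have n5 := nb (-10, 0) (by simp [R]) (by simp [B]; try norm_num)
    have hp1 := h hp
    have hq1 := h hq
    have hs1 := h hs
    have hp2 := hp.1
    have hq2 := hq.1
    have hs2 := hs.1
    clear hp hq hs h nb h3
    simp only [B, Set.mem_insert_iff, Set.mem_singleton_iff] at hp1 hq1 hs1
    simp only [Set.mem_ofPred_eq, sqd] at hp2 hq2 hs2 n1 n2 n3 n4 n5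
    rcases hp1 with rfl | rfl | rfl | rfl | rfl <;> rcases hq1 with rfl | rfl | rfl | rfl | rfl <;>
      first
      | exact absurd rfl hpq
      | (rcases hs1 with rfl | rfl | rfl | rfl | rfl <;>
          first
          | exact absurd rfl hps
          | exact absurd rfl hqs
          | (simp only at hp2 hq2 hs2 n1 n2 n3 n4 n5
             first
             | exact n1 (by linarith)
             | exact n2 (by linarith)
             | exact n3 (by linarith)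
             | exact n4 (by linarith)
             | exact n5 (by linarith)
             | linarith))

/-- Five red and five blue points without a monochromatic circle, no colour class on a circle or a
line, lying up to inversion on no ellipse, no two disjoint circles, no circular cubic and no
bicircular quartic. -/
theorem result : ∃ R B : Set Pt, R.ncard = 5 ∧ B.ncard = 5 ∧ Disjoint R B ∧
    (∀ C, IsCircle C → ¬ IsMonochromatic R B C) ∧
    (∀ C, IsCircle C ∨ IsLine C → ¬ R ⊆ C ∧ ¬ B ⊆ C) ∧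
    (∀ Γ : Set Pt, IsEllipse Γ ∨ IsTwoDisjointCircles Γ ∨ IsCircularCubic Γ ∨
      IsBicircularQuartic Γ → ¬ UpToInversion (R ∪ B) Γ) := by
  refine ⟨R, B, ?_, ?_, ?_, no_mono, ?_, ?_⟩
  · have : R = (({(5, -5), (20, -10), (4, 2), (10, 10), (-10, 0)} : Finset Pt) : Set Pt) := by
      simp [R]
    rw [this, Set.ncard_coe_finset]
    repeat rw [Finset.card_insert_of_notMem (by simp; try norm_num)]
    simp
  · have : B = (({(4, -2), (0, -10), (0, 0), (0, 10), (10, 0)} : Finset Pt) : Set Pt) := by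
      simp [B]
    rw [this, Set.ncard_coe_finset]
    repeat rw [Finset.card_insert_of_notMem (by simp; try norm_num)]
    simp
  · rw [Set.disjoint_left]
    intro p hp hq
    simp only [R, B, Set.mem_insert_iff, Set.mem_singleton_iff] at hp hq
    rcases hp with rfl | rfl | rfl | rfl | rfl <;> norm_num at hq
  · rintro C (⟨⟨u, v⟩, r, hr, rfl⟩ | ⟨a, b, c, hab, rfl⟩)
    · constructor
      · intro h
        have r1 : sqd _ _ = _ := h (show ((5, -5) : Pt) ∈ R by simp [R])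
        have r2 : sqd _ _ = _ := h (show ((20, -10) : Pt) ∈ R by simp [R])
        have r3 : sqd _ _ = _ := h (show ((4, 2) : Pt) ∈ R by simp [R])
        have r4 : sqd _ _ = _ := h (show ((10, 10) : Pt) ∈ R by simp [R])
        have r5 : sqd _ _ = _ := h (show ((-10, 0) : Pt) ∈ R by simp [R])
        simp only [sqd] at r1 r2 r3 r4 r5
        linarith
      · intro h
        have r1 : sqd _ _ = _ := h (show ((4, -2) : Pt) ∈ B by simp [B])
        have r2 : sqd _ _ = _ := h (show ((0, -10) : Pt) ∈ B by simp [B])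
        have r3 : sqd _ _ = _ := h (show ((0, 0) : Pt) ∈ B by simp [B])
        have r4 : sqd _ _ = _ := h (show ((0, 10) : Pt) ∈ B by simp [B])
        have r5 : sqd _ _ = _ := h (show ((10, 0) : Pt) ∈ B by simp [B])
        simp only [sqd] at r1 r2 r3 r4 r5
        linarith
    · constructor
      · intro h
        have r1 := h (show ((5, -5) : Pt) ∈ R by simp [R])
        have r2 := h (show ((20, -10) : Pt) ∈ R by simp [R])
        have r3 := h (show ((4, 2) : Pt) ∈ R by simp [R])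
        have r4 := h (show ((10, 10) : Pt) ∈ R by simp [R])
        simp only [Set.mem_ofPred_eq] at r1 r2 r3 r4
        rcases hab with h0 | h0
        · exact h0 (by linarith)
        · exact h0 (by linarith)
      · intro h
        have r1 := h (show ((4, -2) : Pt) ∈ B by simp [B])
        have r2 := h (show ((0, -10) : Pt) ∈ B by simp [B])
        have r3 := h (show ((0, 0) : Pt) ∈ B by simp [B])
        have r5 := h (show ((10, 0) : Pt) ∈ B by simp [B])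
        simp only [Set.mem_ofPred_eq] at r1 r2 r3 r5
        rcases hab with h0 | h0
        · exact h0 (by linarith)
        · exact h0 (by linarith)
  · intro Γ hΓ h
    apply not_onW
    refine upTo_onW h ?_
    rcases hΓ with h | h | h | h
    · exact ellipse_onW h
    · exact circles_onW h
    · exact cubic_onW h
    · exact quartic_onW h

end Pool.Agent.Results.MP_048963_co.TenPoints
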